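import Pool.Agent.Lib.MP_d71970_an.Final
import Pool.Agent.Lib.MP_d71970_an.Normal

/-!
# The Hoffman-Wielandt inequality for the Schatten 4-norm

For all `n` and all normal complex `n x n` matrices `A`, `B` the eigenvalues of `A` and `B` can be
matched so that the `l^4` distance of the two lists is at most the Schatten 4-norm of `A - B`. So
`p = 2` is not the only exponent for which the Hoffman-Wielandt inequality holds for all normal
matrices of all sizes.
-/

set_option autoImplicit false

open Matrix Polynomial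

namespace Pool.Agent.Results.MP_d71970_an.SchattenFour

/-- The singular values of a matrix `M`: the square roots of the eigenvalues of `Mᴴ * M`. -/
noncomputable def singularValue {n : ℕ} (M : Matrix (Fin n) (Fin n) ℂ) (j : Fin n) : ℝ :=
  Real.sqrt ((Matrix.isHermitian_conjTranspose_mul_self M).eigenvalues j)

/-- The Schatten `p`-norm of a matrix, for a real exponent `p`. -/
noncomputable def schattenNorm {n : ℕ} (p : ℝ) (M : Matrix (Fin n) (Fin n) ℂ) : ℝ :=
  (∑ j, singularValue M j ^ p) ^ (1 / p)

/-- `α` lists the eigenvalues of `A` with algebraic multiplicity. -/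
def IsEigenvalueList {n : ℕ} (A : Matrix (Fin n) (Fin n) ℂ) (α : Fin n → ℂ) : Prop :=
  A.charpoly = ∏ i, (X - C (α i))

/-- The inequality `(HW_p)`: for all `n` and all normal `A`, `B` with eigenvalue lists `α`, `β`,
some permutation `σ` has `‖α - σ(β)‖_p ≤ ‖A - B‖_p`, the norm on the right being the Schatten
norm. -/
def HoffmanWielandt (p : ℝ) : Prop :=
  ∀ (n : ℕ) (A B : Matrix (Fin n) (Fin n) ℂ), Aᴴ * A = A * Aᴴ → Bᴴ * B = B * Bᴴ →
    ∀ α β : Fin n → ℂ, IsEigenvalueList A α → IsEigenvalueList B β →
      ∃ σ : Equiv.Perm (Fin n),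
        (∑ i, ‖α i - β (σ i)‖ ^ p) ^ (1 / p) ≤ schattenNorm p (A - B)

/-- Two eigenvalue lists of one matrix differ by a permutation. -/
theorem exists_perm {n : ℕ} (U : Matrix (Fin n) (Fin n) ℂ) (hU : U ∈ Matrix.unitaryGroup (Fin n) ℂ)
    (α α' : Fin n → ℂ)
    (h : IsEigenvalueList (U * Matrix.diagonal α' * star U) α) :
    ∃ π : Equiv.Perm (Fin n), ∀ i, α i = α' (π i) := by
  have h1 : (U * Matrix.diagonal α' * star U).charpoly = ∏ i, (X - C (α' i)) := by
    have hU' : star U * U = 1 := (Matrix.mem_unitaryGroup_iff').1 hU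
    have hc : (U * Matrix.diagonal α' * star U).charpoly = (Matrix.diagonal α').charpoly := by
      rw [Matrix.charpoly_mul_comm, ← Matrix.mul_assoc, hU', Matrix.one_mul]
    rw [hc, Matrix.charpoly_diagonal]
  unfold IsEigenvalueList at h
  rw [h1] at h
  have h2 : (Finset.univ.val.map α') = (Finset.univ.val.map α) := by
    have ha : (∏ i, (X - C (α' i))).roots = Finset.univ.val.map α' := by
      have := Polynomial.roots_multiset_prod_X_sub_C (Finset.univ.val.map α')
      rw [Multiset.map_map] at this
      exact this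
    have hb : (∏ i, (X - C (α i))).roots = Finset.univ.val.map α := by
      have := Polynomial.roots_multiset_prod_X_sub_C (Finset.univ.val.map α)
      rw [Multiset.map_map] at this
      exact this
    rw [← ha, ← hb, h]
  have h3 : ∀ c : ℂ, Fintype.card {i // α i = c} = Fintype.card {i // α' i = c} := by
    intro c
    have hc := congrArg (Multiset.count c) h2
    rw [Multiset.count_map, Multiset.count_map] at hc
    rw [Fintype.card_subtype, Fintype.card_subtype]
    have e1 : (Finset.univ.filter fun i => α i = c).card =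
        (Multiset.filter (fun i => c = α i) (Finset.univ : Finset (Fin n)).val).card := by
      rw [Finset.card_def, Finset.filter_val]
      congr 1
      exact Multiset.filter_congr fun i _ => eq_comm
    have e2 : (Finset.univ.filter fun i => α' i = c).card =
        (Multiset.filter (fun i => c = α' i) (Finset.univ : Finset (Fin n)).val).card := by
      rw [Finset.card_def, Finset.filter_val]
      congr 1
      exact Multiset.filter_congr fun i _ => eq_comm
    rw [e1, e2, hc]
  have e : ∀ c : ℂ, {i // α i = c} ≃ {i // α' i = c} := fun c => Fintype.equivOfCardEq (h3 c)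
  refine ⟨Equiv.ofFiberEquiv e, fun i => ?_⟩
  exact (Equiv.ofFiberEquiv_map e i).symm

theorem result : HoffmanWielandt 4 := by
  intro n A B hA hB α β hα hβ
  obtain ⟨U, hU, α', rfl⟩ := Pool.Agent.Lib.MP_d71970_an.normal_diag n A hA
  obtain ⟨V, hV, β', rfl⟩ := Pool.Agent.Lib.MP_d71970_an.normal_diag n B hB
  obtain ⟨π, hπ⟩ := exists_perm U hU α α' hα
  obtain ⟨ρ, hρ⟩ := exists_perm V hV β β' hβ
  obtain ⟨σ, hσ⟩ := Pool.Agent.Lib.MP_d71970_an.hw4 α' β' U V hU hV
  refine ⟨(π.trans σ).trans ρ.symm, ?_⟩
  have h4 : ∀ x : ℝ, x ^ (4 : ℝ) = x ^ 4 := fun x => by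
    exact_mod_cast Real.rpow_natCast x 4
  unfold schattenNorm singularValue
  refine Real.rpow_le_rpow (Finset.sum_nonneg fun i _ => by rw [h4]; positivity) ?_ (by norm_num)
  have h5 : ∀ i, Real.sqrt ((Matrix.isHermitian_conjTranspose_mul_self
      (U * Matrix.diagonal α' * star U - V * Matrix.diagonal β' * star V)).eigenvalues i) ^ (4 : ℝ) =
      (Matrix.isHermitian_conjTranspose_mul_self
      (U * Matrix.diagonal α' * star U - V * Matrix.diagonal β' * star V)).eigenvalues i ^ 2 := by
    intro i
    have hnn : 0 ≤ (Matrix.isHermitian_conjTranspose_mul_self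
      (U * Matrix.diagonal α' * star U - V * Matrix.diagonal β' * star V)).eigenvalues i :=
      Pool.Agent.Lib.MP_d71970_an.gram_eigenvalues_nonneg _ i
    rw [h4, show (4 : ℕ) = 2 * 2 by norm_num, pow_mul, Real.sq_sqrt hnn]
  rw [Finset.sum_congr rfl fun i _ => h4 _, Finset.sum_congr rfl fun i _ => h5 i,
    Pool.Agent.Lib.MP_d71970_an.sum_eigenvalues_sq]
  refine le_trans (le_of_eq ?_) hσ
  have h6 : ∀ i, ‖α i - β (((π.trans σ).trans ρ.symm) i)‖ ^ 4 = ‖α' (π i) - β' (σ (π i))‖ ^ 4 := by
    intro i
    simp [hπ, hρ]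
  rw [Finset.sum_congr rfl fun i _ => h6 i]
  exact Equiv.sum_comp π fun i => ‖α' i - β' (σ i)‖ ^ 4

end Pool.Agent.Results.MP_d71970_an.SchattenFour
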